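import Mathlib

/-!
# Exponentially many dimensions of rigid facets in Vietoris-Rips complexes of the hypercube

For `r ≥ 5` and `n ≥ r + 2` the complex `VR(Q_n; r)` has rigid facets in at least
`2 ^ (r - 5) + 1` different dimensions.
-/

namespace Pool.Agent.Results.MP_dee721_co.ExpManyDims

/-- The `n`-dimensional cube (the two values of a coordinate are the two Booleans). -/
abbrev Q (n : ℕ) : Type := Fin n → Bool

/-- Simplices of the Vietoris-Rips complex `VR(Q_n; r)`. -/
def IsSimplex {n : ℕ} (r : ℕ) (σ : Finset (Q n)) : Prop :=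
  σ.Nonempty ∧ ∀ x ∈ σ, ∀ y ∈ σ, hammingDist x y ≤ r

/-- Facets: simplices that are maximal under inclusion. -/
def IsFacet {n : ℕ} (r : ℕ) (σ : Finset (Q n)) : Prop :=
  IsSimplex r σ ∧ ∀ τ : Finset (Q n), IsSimplex r τ → σ ⊆ τ → σ = τ

/-- Rigid: the largest distance from every vertex of `σ` to a vertex of `σ` is `r`. -/
def IsRigid {n : ℕ} (r : ℕ) (σ : Finset (Q n)) : Prop :=
  ∀ x ∈ σ, (σ.sup fun y => hammingDist x y) = r

/-- The set of dimensions of the rigid facets of `VR(Q_n; r)`. -/
def dims (n r : ℕ) : Set ℕ :=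
  {d | ∃ σ : Finset (Q n), IsFacet r σ ∧ IsRigid r σ ∧ d = σ.card - 1}

/-- `f(n; r)`: the number of distinct dimensions of rigid facets. -/
noncomputable def f (n r : ℕ) : ℕ := (dims n r).ncard

/-! ### Working form -/

/-- Working form of being a rigid facet. -/
structure Good {n : ℕ} (r : ℕ) (A : Finset (Q n)) : Prop where
  ne : A.Nonempty
  le : ∀ x ∈ A, ∀ y ∈ A, hammingDist x y ≤ r
  rigid : ∀ a ∈ A, ∃ x ∈ A, hammingDist a x = r
  max : ∀ x, x ∉ A → ∃ a ∈ A, r < hammingDist x a

theorem Good.isFacet {n r : ℕ} {A : Finset (Q n)} (h : Good r A) : IsFacet r A := by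
  refine ⟨⟨h.ne, h.le⟩, fun τ hτ hA => Finset.Subset.antisymm hA fun x hx => ?_⟩
  by_contra hxA
  obtain ⟨a, ha, hr⟩ := h.max x hxA
  exact absurd (hτ.2 x hx a (hA ha)) (by omega)

theorem Good.isRigid {n r : ℕ} {A : Finset (Q n)} (h : Good r A) : IsRigid r A := by
  intro a ha
  apply le_antisymm
  · exact Finset.sup_le fun x hx => h.le a ha x hx
  · obtain ⟨x, hx, hxa⟩ := h.rigid a ha
    rw [← hxa]
    exact Finset.le_sup (f := fun x => hammingDist a x) hx

theorem dist_cons {n : ℕ} (a b : Bool) (x y : Q n) :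
    hammingDist (Fin.cons a x : Q (n + 1)) (Fin.cons b y) =
      (if a = b then 0 else 1) + hammingDist x y := by
  simp only [hammingDist, Finset.card_filter, Fin.sum_univ_succ, Fin.cons_zero, Fin.cons_succ]
  congr 1
  split_ifs <;> simp_all

/-- Adding a constant coordinate. -/
def addPt {n : ℕ} (A : Finset (Q n)) : Finset (Q (n + 1)) :=
  A.image fun x => (Fin.cons true x : Q (n + 1))

theorem mem_addPt {n : ℕ} {A : Finset (Q n)} {b : Bool} {x : Q n} :
    (Fin.cons b x : Q (n + 1)) ∈ addPt A ↔ b = true ∧ x ∈ A := by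
  simp only [addPt, Finset.mem_image]
  constructor
  · rintro ⟨y, hy, h⟩
    obtain ⟨h1, h2⟩ := Fin.cons_injective2 h
    subst h1 h2
    exact ⟨rfl, hy⟩
  · rintro ⟨rfl, hx⟩
    exact ⟨x, hx, rfl⟩

theorem exists_cons {n : ℕ} (x : Q (n + 1)) : ∃ (b : Bool) (y : Q n), x = Fin.cons b y :=
  ⟨x 0, Fin.tail x, (Fin.cons_self_tail x).symm⟩

theorem Good.addPt {n r : ℕ} {A : Finset (Q n)} (h : Good r A) : Good r (addPt A) where
  ne := h.ne.image _
  le := by
    intro x hx y hy
    obtain ⟨b, x, rfl⟩ := exists_cons x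
    obtain ⟨c, y, rfl⟩ := exists_cons y
    obtain ⟨rfl, hx'⟩ := mem_addPt.1 hx
    obtain ⟨rfl, hy'⟩ := mem_addPt.1 hy
    simpa [dist_cons] using h.le x hx' y hy'
  rigid := by
    intro a ha
    obtain ⟨b, a, rfl⟩ := exists_cons a
    obtain ⟨rfl, ha'⟩ := mem_addPt.1 ha
    obtain ⟨x, hx, hxa⟩ := h.rigid a ha'
    exact ⟨Fin.cons true x, mem_addPt.2 ⟨rfl, hx⟩, by simpa [dist_cons] using hxa⟩
  max := by
    intro x hx
    obtain ⟨b, x, rfl⟩ := exists_cons x
    by_cases hxA : x ∈ A
    · have hb : b ≠ true := fun hb => hx (mem_addPt.2 ⟨hb, hxA⟩)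
      obtain ⟨y, hy, hyx⟩ := h.rigid x hxA
      refine ⟨Fin.cons true y, mem_addPt.2 ⟨rfl, hy⟩, ?_⟩
      rw [dist_cons, if_neg hb, hyx]
      omega
    · obtain ⟨a, ha, hr⟩ := h.max x hxA
      refine ⟨Fin.cons true a, mem_addPt.2 ⟨rfl, ha⟩, ?_⟩
      rw [dist_cons]
      omega

theorem card_addPt {n : ℕ} (A : Finset (Q n)) : (addPt A).card = A.card :=
  Finset.card_image_of_injective _ fun _ _ h => (Fin.cons_injective2 h).2

/-! ### Flips and antipodes -/

/-- Change coordinate `i`. -/
def flip {n : ℕ} (x : Q n) (i : Fin n) : Q n := Function.update x i (!x i)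

/-- The antipode. -/
def anti {n : ℕ} (x : Q n) : Q n := fun i => !x i

theorem flip_same {n : ℕ} (x : Q n) (i : Fin n) : flip x i i = !x i := by
  simp [flip]

theorem flip_ne {n : ℕ} (x : Q n) {i j : Fin n} (h : j ≠ i) : flip x i j = x j := by
  simp [flip, h]

theorem anti_apply {n : ℕ} (x : Q n) (i : Fin n) : anti x i = !x i := rfl

@[simp] theorem anti_anti {n : ℕ} (x : Q n) : anti (anti x) = x := by
  funext i; simp [anti]

theorem anti_injective {n : ℕ} : Function.Injective (anti : Q n → Q n) := fun x y h => by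
  rw [← anti_anti x, h, anti_anti]

theorem dist_anti {n : ℕ} (x y : Q n) : hammingDist x (anti y) + hammingDist x y = n := by
  have h1 : hammingDist x (anti y) = (Finset.univ.filter fun i => x i = y i).card := by
    unfold hammingDist
    congr 1
    ext i
    rw [Finset.mem_filter, Finset.mem_filter, anti_apply]
    generalize x i = a
    generalize y i = b
    cases a <;> cases b <;> simp
  rw [h1]
  unfold hammingDist
  have h := Finset.card_filter_add_card_filter_not (s := (Finset.univ : Finset (Fin n)))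
    (fun i => x i = y i)
  simpa using h

theorem dist_flip {n : ℕ} (x : Q n) (i : Fin n) : hammingDist x (flip x i) = 1 := by
  unfold hammingDist
  rw [Finset.card_eq_one]
  refine ⟨i, ?_⟩
  ext j
  rw [Finset.mem_filter, Finset.mem_singleton]
  by_cases h : j = i
  · subst h
    rw [flip_same]
    simp
  · rw [flip_ne x h]
    simp [h]

theorem flip_flip_same {n : ℕ} (x : Q n) (i : Fin n) : flip (flip x i) i = x := by
  simp [flip]

theorem dist_flip_flip {n : ℕ} (x : Q n) {i j : Fin n} (h : i ≠ j) :
    hammingDist x (flip (flip x i) j) = 2 := by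
  unfold hammingDist
  rw [Finset.card_eq_two]
  refine ⟨i, j, h, ?_⟩
  ext k
  rw [Finset.mem_filter, Finset.mem_insert, Finset.mem_singleton]
  by_cases hk : k = j
  · subst hk
    rw [flip_same, flip_ne x (Ne.symm h)]
    simp
  · rw [flip_ne _ hk]
    by_cases hi : k = i
    · subst hi
      rw [flip_same]
      simp
    · rw [flip_ne x hi]
      simp [hk, hi]

theorem eq_flip_of_dist {n : ℕ} (x y : Q n) (h : hammingDist x y = 1) :
    ∃ i, y = flip x i := by
  unfold hammingDist at h
  rw [Finset.card_eq_one] at h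
  obtain ⟨i, hi⟩ := h
  refine ⟨i, ?_⟩
  funext j
  have hj : j ∈ (Finset.univ.filter fun i => x i ≠ y i) ↔ j ∈ ({i} : Finset (Fin n)) := by
    rw [hi]
  rw [Finset.mem_filter, Finset.mem_singleton] at hj
  by_cases h : j = i
  · subst h
    have h2 := (hj.2 rfl).2
    rw [flip_same]
    revert h2
    generalize x j = a
    generalize y j = b
    cases a <;> cases b <;> simp
  · have h2 : ¬ (x j ≠ y j) := fun h' => h (hj.1 ⟨Finset.mem_univ _, h'⟩)
    rw [flip_ne x h]
    exact (not_not.1 h2).symm

/-- Main criterion: an antipodal labelling of the cube by two signs and a neutral label. -/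
theorem good_of_lab {n : ℕ} (lab : Q n → Option Bool) (hn : 2 ≤ n)
    (h0 : ∀ x, lab (anti x) = (lab x).map not)
    (h1 : ∀ x i, lab x = some true → lab (flip x i) ≠ some false)
    (h2 : ∀ x, lab x = none → ∀ b, ∃ i, lab (flip x i) = some b)
    (h3 : ∀ x b, lab x = some b → ∃ i, lab (flip x i) = none)
    (h4 : ∃ x, lab x = some true) :
    Good (n - 2) (Finset.univ.filter fun x => lab x = some true) where
  ne := by
    obtain ⟨x, hx⟩ := h4
    exact ⟨x, by simpa using hx⟩
  le := by
    intro x hx y hy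
    simp only [Finset.mem_filter, Finset.mem_univ, true_and] at hx hy
    by_contra hlt
    have h := dist_anti x y
    have hy' : lab (anti y) = some false := by rw [h0, hy]; rfl
    rcases Nat.lt_or_ge (hammingDist x (anti y)) 1 with hd | hd
    · have : x = anti y := by
        rw [← hammingDist_eq_zero]; omega
      rw [this, hy'] at hx
      simp at hx
    · have hd1 : hammingDist x (anti y) = 1 := by omega
      obtain ⟨i, hi⟩ := eq_flip_of_dist _ _ hd1
      apply h1 x i hx
      rw [← hi, hy']
  rigid := by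
    intro x hx
    simp only [Finset.mem_filter, Finset.mem_univ, true_and] at hx
    have hx' : lab (anti x) = some false := by rw [h0, hx]; rfl
    obtain ⟨i, hi⟩ := h3 _ _ hx'
    obtain ⟨j, hj⟩ := h2 _ hi true
    have hij : i ≠ j := by
      rintro rfl
      rw [flip_flip_same, hx'] at hj
      simp at hj
    refine ⟨flip (flip (anti x) i) j, by simpa using hj, ?_⟩
    have h := dist_anti (flip (flip (anti x) i) j) x
    rw [hammingDist_comm _ (anti x), dist_flip_flip _ hij, hammingDist_comm _ x] at h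
    omega
  max := by
    intro x hx
    simp only [Finset.mem_filter, Finset.mem_univ, true_and] at hx
    have hcase : lab x = some false ∨ lab x = none := by
      rcases hl : lab x with _ | b
      · exact Or.inr rfl
      · cases b
        · exact Or.inl rfl
        · exact absurd hl hx
    rcases hcase with hl | hl
    · refine ⟨anti x, by simp [h0, hl], ?_⟩
      have h := dist_anti x x
      rw [hammingDist_self] at h
      omega
    · obtain ⟨i, hi⟩ := h2 _ hl false
      refine ⟨anti (flip x i), by simp [h0, hi], ?_⟩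
      have h := dist_anti x (flip x i)
      rw [dist_flip] at h
      omega

/-! ### The two patterns on the 6-cube -/

/-- First pattern (antipodal), on binary numbers. -/
def LF (k : ℕ) : Option Bool :=
  if k ∈ [2, 13, 20, 27, 33, 46, 55, 56] then some true
  else if k ∈ [7, 8, 17, 30, 36, 43, 50, 61] then some false
  else none

/-- Second pattern, on binary numbers. -/
def LG (k : ℕ) : Option Bool :=
  if k ∈ [0, 1, 2, 3, 9, 16, 25, 32, 33, 34, 37, 39, 40, 45, 46, 49, 51, 57] then some true
  else if k ∈ [12, 15, 21, 22, 23, 26, 28, 30, 31, 43, 52, 54, 58, 60, 63] then some false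
  else none

/-- Binary digits. -/
def bits (k : ℕ) : Q 6 := fun i => k.testBit i

theorem exists_bits (x : Q 6) : ∃ k < 64, bits k = x := by
  refine ⟨Nat.ofBits x, by simpa using Nat.ofBits_lt_two_pow x, ?_⟩
  funext i
  simp [bits, Nat.testBit_ofBits_lt]

theorem ofBits_bits {k : ℕ} (hk : k < 64) : Nat.ofBits (bits k) = k := by
  apply Nat.eq_of_testBit_eq
  intro i
  by_cases hi : i < 6
  · rw [Nat.testBit_ofBits_lt _ _ hi]
    rfl
  · rw [Nat.testBit_ofBits_ge _ _ (by omega)]
    symm
    apply Nat.testBit_lt_two_pow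
    calc k < 2 ^ 6 := by norm_num; exact hk
      _ ≤ 2 ^ i := Nat.pow_le_pow_right (by norm_num) (by omega)

theorem flip_bits (k : ℕ) (i : Fin 6) : flip (bits k) i = bits (k ^^^ 2 ^ (i : ℕ)) := by
  funext j
  by_cases h : j = i
  · subst h
    rw [flip_same]
    simp only [bits, Nat.testBit_xor, Nat.testBit_two_pow]
    simp
  · rw [flip_ne _ h]
    have : ¬ ((i : ℕ) = (j : ℕ)) := fun h' => h (Fin.ext h'.symm)
    simp only [bits, Nat.testBit_xor, Nat.testBit_two_pow]
    simp [this]

theorem anti_bits (k : ℕ) : anti (bits k) = bits (k ^^^ 63) := by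
  funext j
  have h : Nat.testBit 63 (j : ℕ) = true := by
    rw [show (63 : ℕ) = 2 ^ 6 - 1 by norm_num, Nat.testBit_two_pow_sub_one]
    simp [j.2]
  simp only [bits, anti, Nat.testBit_xor, h]
  cases Nat.testBit k j <;> rfl

/-- First pattern. -/
def F (x : Q 6) : Option Bool := LF (Nat.ofBits x)

/-- Second pattern. -/
def G (x : Q 6) : Option Bool := LG (Nat.ofBits x)

/-- Antipodal image of the second pattern. -/
def Gs (x : Q 6) : Option Bool := (G (anti x)).map not

theorem F_bits {k : ℕ} (hk : k < 64) : F (bits k) = LF k := by rw [F, ofBits_bits hk]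

theorem G_bits {k : ℕ} (hk : k < 64) : G (bits k) = LG k := by rw [G, ofBits_bits hk]

theorem LF_anti : ∀ k < 64, LF (k ^^^ 63) = (LF k).map not := by decide +kernel

theorem L1 : ∀ k < 64, ∀ i < 6, (LF k = some true → LF (k ^^^ 2 ^ i) ≠ some false) ∧
    (LG k = some true → LG (k ^^^ 2 ^ i) ≠ some false) := by decide +kernel

theorem L2 : ∀ k < 64, ∀ b : Bool, (LF k = none → ∃ i : Fin 6, LF (k ^^^ 2 ^ (i : ℕ)) = some b) ∧
    (LG k = none → ∃ i : Fin 6, LG (k ^^^ 2 ^ (i : ℕ)) = some b) := by decide +kernel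

theorem L3 : ∀ k < 64, ∀ b : Bool, (LF k = some b → ∃ i : Fin 6, LF (k ^^^ 2 ^ (i : ℕ)) = none) ∧
    (LG k = some b → ∃ i : Fin 6, LG (k ^^^ 2 ^ (i : ℕ)) = none) := by decide +kernel

theorem L4 : ∀ k < 64, ∀ b : Bool, (LG k = some b → LG (k ^^^ 63) ≠ some b) ∧
    (LF k = some b → LG k ≠ some (!b)) := by decide +kernel

theorem xor_lt {k l : ℕ} (hk : k < 64) (hl : l < 64) : k ^^^ l < 64 :=
  Nat.xor_lt_two_pow (n := 6) hk hl

theorem two_pow_lt (i : Fin 6) : 2 ^ (i : ℕ) < 64 := by
  calc 2 ^ (i : ℕ) < 2 ^ 6 := Nat.pow_lt_pow_right (by norm_num) i.2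
    _ = 64 := by norm_num

/-- Internal conditions for a pattern. -/
structure Pat (P : Q 6 → Option Bool) : Prop where
  h1 : ∀ x i, P x = some true → P (flip x i) ≠ some false
  h2 : ∀ x, P x = none → ∀ b, ∃ i, P (flip x i) = some b
  h3 : ∀ x b, P x = some b → ∃ i, P (flip x i) = none

theorem pat_F : Pat F where
  h1 := by
    intro x i
    obtain ⟨k, hk, rfl⟩ := exists_bits x
    rw [flip_bits, F_bits hk, F_bits (xor_lt hk (two_pow_lt i))]
    exact (L1 k hk i i.2).1
  h2 := by
    intro x
    obtain ⟨k, hk, rfl⟩ := exists_bits x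
    rw [F_bits hk]
    intro h b
    obtain ⟨i, hi⟩ := (L2 k hk b).1 h
    exact ⟨i, by rw [flip_bits, F_bits (xor_lt hk (two_pow_lt i))]; exact hi⟩
  h3 := by
    intro x b
    obtain ⟨k, hk, rfl⟩ := exists_bits x
    rw [F_bits hk]
    intro h
    obtain ⟨i, hi⟩ := (L3 k hk b).1 h
    exact ⟨i, by rw [flip_bits, F_bits (xor_lt hk (two_pow_lt i))]; exact hi⟩

theorem pat_G : Pat G where
  h1 := by
    intro x i
    obtain ⟨k, hk, rfl⟩ := exists_bits x
    rw [flip_bits, G_bits hk, G_bits (xor_lt hk (two_pow_lt i))]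
    exact (L1 k hk i i.2).2
  h2 := by
    intro x
    obtain ⟨k, hk, rfl⟩ := exists_bits x
    rw [G_bits hk]
    intro h b
    obtain ⟨i, hi⟩ := (L2 k hk b).2 h
    exact ⟨i, by rw [flip_bits, G_bits (xor_lt hk (two_pow_lt i))]; exact hi⟩
  h3 := by
    intro x b
    obtain ⟨k, hk, rfl⟩ := exists_bits x
    rw [G_bits hk]
    intro h
    obtain ⟨i, hi⟩ := (L3 k hk b).2 h
    exact ⟨i, by rw [flip_bits, G_bits (xor_lt hk (two_pow_lt i))]; exact hi⟩

theorem anti_flip {n : ℕ} (x : Q n) (i : Fin n) : anti (flip x i) = flip (anti x) i := by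
  funext j
  by_cases h : j = i
  · subst h; simp [anti, flip]
  · simp only [anti, flip, Function.update_of_ne h]

theorem map_not_eq {o : Option Bool} {b : Bool} : o.map not = some b ↔ o = some (!b) := by
  rcases o with _ | c
  · simp
  · cases b <;> cases c <;> simp

theorem map_not_none {o : Option Bool} : o.map not = none ↔ o = none := by
  rcases o with _ | c <;> simp

theorem pat_Gs : Pat Gs where
  h1 := by
    intro x i h h'
    simp only [Gs, map_not_eq] at h h'
    have h2 := pat_G.h1 (anti (flip x i)) i (by simpa using h')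
    rw [anti_flip, flip_flip_same] at h2
    exact h2 (by simpa using h)
  h2 := by
    intro x h b
    simp only [Gs, map_not_none] at h
    obtain ⟨i, hi⟩ := pat_G.h2 _ h (!b)
    exact ⟨i, by simp only [Gs, map_not_eq, anti_flip]; exact hi⟩
  h3 := by
    intro x b h
    simp only [Gs, map_not_eq] at h
    obtain ⟨i, hi⟩ := pat_G.h3 _ _ h
    exact ⟨i, by simp only [Gs, map_not_none, anti_flip]; exact hi⟩

theorem F_anti (x : Q 6) : F (anti x) = (F x).map not := by
  obtain ⟨k, hk, rfl⟩ := exists_bits x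
  rw [anti_bits, F_bits hk, F_bits (xor_lt hk (by norm_num))]
  exact LF_anti k hk

theorem G_anti (x : Q 6) (b : Bool) : G x = some b → G (anti x) ≠ some b := by
  obtain ⟨k, hk, rfl⟩ := exists_bits x
  rw [anti_bits, G_bits hk, G_bits (xor_lt hk (by norm_num))]
  exact (L4 k hk b).1

theorem F_G (x : Q 6) (b : Bool) : F x = some b → G x ≠ some (!b) := by
  obtain ⟨k, hk, rfl⟩ := exists_bits x
  rw [F_bits hk, G_bits hk]
  exact (L4 k hk b).2

theorem F_Gs (x : Q 6) (b : Bool) : F x = some b → Gs x ≠ some (!b) := by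
  intro h h'
  simp only [Gs, map_not_eq, Bool.not_not] at h'
  have h1 : F (anti x) = some (!b) := by rw [F_anti, h]; rfl
  exact F_G _ _ h1 (by simpa using h')

theorem G_Gs (x : Q 6) (b : Bool) : G x = some b → Gs x ≠ some (!b) := by
  intro h h'
  simp only [Gs, map_not_eq, Bool.not_not] at h'
  exact G_anti x b h h'

/-! ### Gluing the patterns over a second cube -/

section glue

variable {m : ℕ}

/-- The pattern over a point of the second cube. -/
def pat (T : Finset (Q m)) (y : Q m) : Q 6 → Option Bool :=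
  if y ∈ T then G else if anti y ∈ T then Gs else F

theorem pat_pat (T : Finset (Q m)) (y : Q m) : Pat (pat T y) := by
  unfold pat
  split_ifs
  · exact pat_G
  · exact pat_Gs
  · exact pat_F

theorem pat_compat (T : Finset (Q m)) (y z : Q m) (x : Q 6) (b : Bool) :
    pat T y x = some b → pat T z x ≠ some (!b) := by
  unfold pat
  intro h h'
  split_ifs at h h'
  all_goals first
    | exact absurd (h.symm.trans h') (by simp)
    | exact G_Gs x b h h'
    | exact F_G x b h h'
    | exact F_Gs x b h h'
    | exact G_Gs x (!b) h' (by simpa using h)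
    | exact F_G x (!b) h' (by simpa using h)
    | exact F_Gs x (!b) h' (by simpa using h)

theorem pat_anti (T : Finset (Q m)) (hT : ∀ y ∈ T, anti y ∉ T) (y : Q m) (x : Q 6) :
    pat T (anti y) (anti x) = (pat T y x).map not := by
  unfold pat
  by_cases h1 : y ∈ T
  · rw [if_pos h1, if_neg (hT y h1), anti_anti, if_pos h1, Gs, anti_anti]
  · rw [if_neg h1, anti_anti, if_neg h1]
    by_cases h2 : anti y ∈ T
    · rw [if_pos h2, if_pos h2, Gs]
      rcases G (anti x) with _ | b
      · rfl
      · cases b <;> rfl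
    · rw [if_neg h2, if_neg h2, F_anti]

/-- The glued labelling. -/
def lab (T : Finset (Q m)) (z : Q (6 + m)) : Option Bool :=
  pat T (fun i => z (Fin.natAdd 6 i)) (fun i => z (Fin.castAdd m i))

theorem lab_append (T : Finset (Q m)) (x : Q 6) (y : Q m) :
    lab T (Fin.append x y) = pat T y x := by
  simp [lab]

theorem exists_append (z : Q (6 + m)) : ∃ (x : Q 6) (y : Q m), z = Fin.append x y :=
  ⟨fun i => z (Fin.castAdd m i), fun i => z (Fin.natAdd 6 i),
    (Fin.append_castAdd_natAdd (f := z)).symm⟩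

theorem flip_append_left (x : Q 6) (y : Q m) (i : Fin 6) :
    flip (Fin.append x y) (Fin.castAdd m i) = Fin.append (flip x i) y := by
  funext j
  refine Fin.addCases (fun j => ?_) (fun j => ?_) j
  · by_cases h : j = i
    · subst h; simp [flip]
    · have h' : Fin.castAdd m j ≠ Fin.castAdd m i := fun h' => h (Fin.castAdd_injective _ _ h')
      simp [flip, Function.update_of_ne h, Function.update_of_ne h']
  · have h' : Fin.natAdd 6 j ≠ Fin.castAdd m i := by
      intro h'
      have := congrArg Fin.val h'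
      simp at this
      omega
    simp [flip, Function.update_of_ne h']

theorem flip_append_right (x : Q 6) (y : Q m) (i : Fin m) :
    flip (Fin.append x y) (Fin.natAdd 6 i) = Fin.append x (flip y i) := by
  funext j
  refine Fin.addCases (fun j => ?_) (fun j => ?_) j
  · have h' : Fin.castAdd m j ≠ Fin.natAdd 6 i := by
      intro h'
      have := congrArg Fin.val h'
      simp at this
      omega
    simp [flip, Function.update_of_ne h']
  · by_cases h : j = i
    · subst h; simp [flip]
    · have h' : Fin.natAdd 6 j ≠ Fin.natAdd 6 i := fun h' => h (Fin.natAdd_injective _ _ h')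
      simp [flip, Function.update_of_ne h, Function.update_of_ne h']

theorem anti_append (x : Q 6) (y : Q m) :
    anti (Fin.append x y) = Fin.append (anti x) (anti y) := by
  funext j
  refine Fin.addCases (fun j => ?_) (fun j => ?_) j <;> simp [anti]

theorem good_lab (T : Finset (Q m)) (hT : ∀ y ∈ T, anti y ∉ T) :
    Good (6 + m - 2) (Finset.univ.filter fun z => lab T z = some true) := by
  apply good_of_lab (lab T) (by omega)
  · intro z
    obtain ⟨x, y, rfl⟩ := exists_append z
    rw [anti_append, lab_append, lab_append, pat_anti T hT]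
  · intro z i
    obtain ⟨x, y, rfl⟩ := exists_append z
    refine Fin.addCases (fun i => ?_) (fun i => ?_) i
    · rw [flip_append_left, lab_append, lab_append]
      exact (pat_pat T y).h1 x i
    · rw [flip_append_right, lab_append, lab_append]
      exact pat_compat T y (flip y i) x true
  · intro z
    obtain ⟨x, y, rfl⟩ := exists_append z
    rw [lab_append]
    intro h b
    obtain ⟨i, hi⟩ := (pat_pat T y).h2 x h b
    exact ⟨Fin.castAdd m i, by rw [flip_append_left, lab_append]; exact hi⟩
  · intro z b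
    obtain ⟨x, y, rfl⟩ := exists_append z
    rw [lab_append]
    intro h
    obtain ⟨i, hi⟩ := (pat_pat T y).h3 x b h
    exact ⟨Fin.castAdd m i, by rw [flip_append_left, lab_append]; exact hi⟩
  · -- nonempty
    obtain ⟨x, hx⟩ : ∃ x, pat T (fun _ => true) x = some true := by
      have hP := pat_pat T (fun _ => true)
      rcases h0 : pat T (fun _ => true) (bits 0) with _ | b
      · obtain ⟨i, hi⟩ := hP.h2 _ h0 true
        exact ⟨_, hi⟩
      · obtain ⟨i, hi⟩ := hP.h3 _ _ h0
        obtain ⟨j, hj⟩ := hP.h2 _ hi true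
        exact ⟨_, hj⟩
    exact ⟨Fin.append x (fun _ => true), by rw [lab_append]; exact hx⟩

/-! ### Counting -/

theorem count_eq (P : Q 6 → Option Bool) (b : Bool) (LP : ℕ → Option Bool)
    (h : ∀ k < 64, P (bits k) = LP k) :
    (Finset.univ.filter fun x => P x = some b).card =
      ((Finset.range 64).filter fun k => LP k = some b).card := by
  symm
  apply Finset.card_bij (fun k _ => bits k)
  · intro k hk
    simp only [Finset.mem_filter, Finset.mem_range, Finset.mem_univ, true_and] at hk ⊢
    rw [h k hk.1]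
    exact hk.2
  · intro k hk l hl hkl
    simp only [Finset.mem_filter, Finset.mem_range] at hk hl
    rw [← ofBits_bits hk.1, hkl, ofBits_bits hl.1]
  · intro x hx
    obtain ⟨k, hk, rfl⟩ := exists_bits x
    simp only [Finset.mem_filter, Finset.mem_univ, true_and] at hx
    exact ⟨k, by simp only [Finset.mem_filter, Finset.mem_range]; exact ⟨hk, by rw [← h k hk, hx]⟩,
      rfl⟩

theorem count_F : (Finset.univ.filter fun x => F x = some true).card = 8 := by
  rw [count_eq F true LF fun k hk => F_bits hk]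
  decide +kernel

theorem count_G (b : Bool) : (Finset.univ.filter fun x => G x = some b).card =
    if b then 18 else 15 := by
  rw [count_eq G b LG fun k hk => G_bits hk]
  revert b
  decide +kernel

theorem count_Gs : (Finset.univ.filter fun x => Gs x = some true).card = 15 := by
  have h := count_G false
  rw [if_neg (by simp)] at h
  rw [← h]
  apply Finset.card_bij (fun x _ => anti x)
  · intro x hx
    simpa [Gs, map_not_eq] using hx
  · intro x _ y _ hxy
    exact anti_injective hxy
  · intro x hx
    refine ⟨anti x, ?_, anti_anti x⟩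
    simpa [Gs, map_not_eq] using hx

theorem count_pat (T : Finset (Q m)) (hT : ∀ y ∈ T, anti y ∉ T) (y : Q m) :
    (Finset.univ.filter fun x => pat T y x = some true).card =
      8 + ((if y ∈ T then 10 else 0) + (if anti y ∈ T then 7 else 0)) := by
  by_cases h1 : y ∈ T
  · have : pat T y = G := by unfold pat; rw [if_pos h1]
    rw [this, count_G, if_pos h1, if_neg (hT y h1)]
    rfl
  · by_cases h2 : anti y ∈ T
    · have : pat T y = Gs := by unfold pat; rw [if_neg h1, if_pos h2]
      rw [this, count_Gs, if_neg h1, if_pos h2]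
    · have : pat T y = F := by unfold pat; rw [if_neg h1, if_neg h2]
      rw [this, count_F, if_neg h1, if_neg h2]

theorem card_lab (T : Finset (Q m)) (hT : ∀ y ∈ T, anti y ∉ T) :
    (Finset.univ.filter fun z => lab T z = some true).card = 8 * 2 ^ m + 17 * T.card := by
  have h1 : (Finset.univ.filter fun z => lab T z = some true).card =
      ∑ y : Q m, (Finset.univ.filter fun x : Q 6 => pat T y x = some true).card := by
    simp only [Finset.card_filter]
    rw [← Fintype.sum_equiv (Fin.appendEquiv 6 m) (fun p : Q 6 × Q m =>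
      if pat T p.2 p.1 = some true then 1 else 0) _ (by
        rintro ⟨x, y⟩
        have : (Fin.appendEquiv 6 m) (x, y) = Fin.append x y := rfl
        rw [this, lab_append]), Fintype.sum_prod_type_right]
  rw [h1, Finset.sum_congr rfl fun y _ => count_pat T hT y, Finset.sum_add_distrib,
    Finset.sum_add_distrib]
  have h2 : ∑ y : Q m, (if y ∈ T then 10 else 0) = 10 * T.card := by
    rw [← Finset.sum_filter]
    simp [mul_comm]
  have h3 : ∑ y : Q m, (if anti y ∈ T then 7 else 0) = 7 * T.card := by
    rw [← Finset.sum_filter]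
    have : (Finset.univ.filter fun y : Q m => anti y ∈ T).card = T.card := by
      apply Finset.card_bij (fun y _ => anti y)
      · intro y hy; simpa using hy
      · intro x _ y _ hxy; exact anti_injective hxy
      · intro y hy; exact ⟨anti y, by simpa using hy, anti_anti y⟩
    simp [this, mul_comm]
  rw [h2, h3]
  simp
  ring

end glue

theorem exists_good (m s : ℕ) (hs : s ≤ 2 ^ m) (n : ℕ) (hn : m + 7 ≤ n) :
    ∃ A : Finset (Q n), Good (m + 5) A ∧ A.card = 8 * 2 ^ (m + 1) + 17 * s := by
  induction n, hn using Nat.le_induction with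
  | base =>
    obtain ⟨S, -, hS⟩ := Finset.exists_subset_card_eq
      (show s ≤ (Finset.univ : Finset (Q m)).card by simpa using hs)
    have hT : ∀ y ∈ addPt S, anti y ∉ addPt S := by
      intro y hy hy'
      obtain ⟨b, y, rfl⟩ := exists_cons y
      obtain ⟨rfl, -⟩ := mem_addPt.1 hy
      have : anti (Fin.cons true y : Q (m + 1)) = Fin.cons false (anti y) := by
        funext j
        refine Fin.cases ?_ (fun j => ?_) j <;> simp [anti]
      rw [this] at hy'
      exact absurd (mem_addPt.1 hy').1 (by simp)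
    have h := good_lab (addPt S) hT
    have hc := card_lab (addPt S) hT
    rw [card_addPt, hS] at hc
    have e : 6 + (m + 1) = m + 7 := by omega
    have e' : 6 + (m + 1) - 2 = m + 5 := by omega
    rw [e'] at h
    revert h hc
    generalize (Finset.univ.filter fun z => lab (addPt S) z = some true) = A
    revert A
    rw [e]
    intro A h hc
    exact ⟨A, h, hc⟩
  | succ n hn ih =>
    obtain ⟨A, hA, hc⟩ := ih
    exact ⟨addPt A, hA.addPt, by rw [card_addPt, hc]⟩

theorem dims_finite (n r : ℕ) : (dims n r).Finite := by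
  apply (Set.finite_Iic (Fintype.card (Q n))).subset
  rintro d ⟨σ, -, -, rfl⟩
  have := Finset.card_le_univ σ
  simp only [Set.mem_Iic]
  omega

theorem lower (r n : ℕ) (hr : 5 ≤ r) (hn : r + 2 ≤ n) : 2 ^ (r - 5) + 1 ≤ f n r := by
  obtain ⟨m, rfl⟩ : ∃ m, r = m + 5 := ⟨r - 5, by omega⟩
  rw [show m + 5 - 5 = m by omega]
  have hsub : (fun s : ℕ => 8 * 2 ^ (m + 1) + 17 * s - 1) '' (Set.Iic (2 ^ m)) ⊆
      dims n (m + 5) := by
    rintro d ⟨s, hs, rfl⟩
    obtain ⟨A, hA, hc⟩ := exists_good m s hs n (by omega)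
    exact ⟨A, hA.isFacet, hA.isRigid, by rw [hc]⟩
  have h1 := Set.ncard_le_ncard hsub (dims_finite n (m + 5))
  rw [Set.ncard_image_of_injective] at h1
  · have h2 : (Set.Iic (2 ^ m) : Set ℕ).ncard = 2 ^ m + 1 := by
      rw [← Finset.coe_Iic, Set.ncard_coe_finset, Nat.card_Iic]
    rw [h2] at h1
    exact h1
  · intro s t h
    have h3 : 0 < 2 ^ (m + 1) := by positivity
    simp only at h
    omega

/-- The number `f(n; r)` of dimensions of rigid facets of `VR(Q_n; r)` is exponential in `r` for
`n` sufficiently large; explicitly `f(n; r) ≥ 2 ^ (r - 5) + 1` for all `r ≥ 5` and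
`n ≥ r + 2`. -/
theorem result :
    (∃ c : ℝ, 0 < c ∧ ∃ r₀ : ℕ, ∀ r ≥ r₀, ∃ n₀ : ℕ, ∀ n ≥ n₀,
      Real.exp (c * r) ≤ (f n r : ℝ)) ∧
    ∀ r n : ℕ, 5 ≤ r → r + 2 ≤ n → 2 ^ (r - 5) + 1 ≤ f n r := by
  refine ⟨⟨Real.log 2 / 2, by have := Real.log_pos (one_lt_two); positivity, 10, ?_⟩, lower⟩
  intro r hr
  refine ⟨r + 2, fun n hn => ?_⟩
  have h := lower r n (by omega) hn
  have h1 : Real.exp (Real.log 2 / 2 * r) ≤ 2 ^ (r - 5) := by
    rw [← Real.rpow_natCast, Real.rpow_def_of_pos (by norm_num : (0:ℝ) < 2)]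
    apply Real.exp_le_exp.2
    have hl : 0 < Real.log 2 := Real.log_pos one_lt_two
    have h2 : ((r - 5 : ℕ) : ℝ) = (r : ℝ) - 5 := by
      rw [Nat.cast_sub (by omega)]; norm_num
    have h3 : (10 : ℝ) ≤ r := by exact_mod_cast hr
    rw [h2]
    nlinarith
  refine h1.trans ?_
  have h4 : (2 : ℝ) ^ (r - 5) ≤ ((2 ^ (r - 5) + 1 : ℕ) : ℝ) := by push_cast; linarith
  exact h4.trans (by exact_mod_cast h)

end Pool.Agent.Results.MP_dee721_co.ExpManyDims
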